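import Mathlib

namespace Pool.Agent.Results.MP_850d3d_an.Q1

open Set

/-- `g` is locally solvent of degree `m` at `a0`. -/
def LocSolv {A Q : Type} (g : A → Q → ℝ) (m : ℕ) (a0 : A) : Prop :=
  ∀ T : Finset Q, T.card = m → ∀ ε : ℝ, 0 < ε → ∃ δ : ℝ, 0 < δ ∧ ∀ γ : Q → ℝ,
    (∀ t ∈ T, |g a0 t - γ t| < δ) → ∃ a : A, (∀ t ∈ T, g a t = γ t) ∧ ∀ t, |g a t - g a0 t| < ε

/-- `g` is varisolvent, with degree function valued in `1, ..., |Q|`. -/
def Varisolvent {A Q : Type} [Fintype Q] (g : A → Q → ℝ) : Prop :=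
  ∃ p : A → ℕ, (∃ a b, p a ≠ p b) ∧ (∀ a, 1 ≤ p a ∧ p a ≤ Fintype.card Q) ∧
    (∀ a0, LocSolv g (p a0) a0) ∧
    ∀ a0 a, a ≠ a0 → {t : Q | g a0 t - g a t = 0}.ncard ≤ p a0 - 1

lemma bump {A Q : Type} [DecidableEq Q] (g : A → Q → ℝ) (m : ℕ) (a0 : A) (h : LocSolv g m a0)
    (T : Finset Q) (hT : T.card = m) (t0 : Q) (ht0 : t0 ∈ T) (ε : ℝ) (hε : 0 < ε) :
    ∃ δ : ℝ, 0 < δ ∧ ∀ x : Q → ℝ, (∀ t, |g a0 t - x t| < δ) →
      ∃ a : A, (∀ t ∈ T.erase t0, g a t = x t) ∧ x t0 < g a t0 ∧ ∀ t, |g a t - g a0 t| < ε := by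
  obtain ⟨δ, hδ, H⟩ := h T hT ε hε
  refine ⟨δ / 2, by positivity, fun x hx => ?_⟩
  obtain ⟨a, ha, hb⟩ := H (Function.update x t0 (x t0 + δ / 2)) (by
    intro t _
    have := abs_lt.1 (hx t)
    by_cases h : t = t0
    · subst h
      rw [Function.update_self, abs_lt]
      constructor <;> linarith [this.1, this.2]
    · rw [Function.update_of_ne h, abs_lt]
      constructor <;> linarith [this.1, this.2])
  refine ⟨a, fun t ht => ?_, ?_, hb⟩
  · rw [ha t (Finset.mem_of_mem_erase ht), Function.update_of_ne (Finset.ne_of_mem_erase ht)]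
  · rw [ha t0 ht0, Function.update_self]
    linarith

theorem result (A Q : Type) [Fintype Q] (g : A → Q → ℝ) (hv : Varisolvent g)
    (hconn : IsConnected (Set.range g)) : ¬ IsClosed (Set.range g) := by
  classical
  intro hG
  obtain ⟨p, ⟨a1, b1, hab⟩, hp, hs, hz⟩ := hv
  have hz' : ∀ a0 a, a ≠ a0 → ∀ S : Finset Q, (∀ t ∈ S, g a0 t = g a t) → S.card ≤ p a0 - 1 := by
    intro a0 a hne S hS
    refine le_trans ?_ (hz a0 a hne)
    rw [← Set.ncard_coe_finset]
    refine Set.ncard_le_ncard (fun t ht => ?_) (Set.toFinite _)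
    simp only [Set.mem_ofPred_eq]
    rw [hS t (by simpa using ht)]
    ring
  have hfin : (Set.range p).Finite :=
    (Set.finite_Iic (Fintype.card Q)).subset (by rintro _ ⟨a, rfl⟩; exact (hp a).2)
  obtain ⟨m, ⟨am, ham⟩, hm⟩ := Set.exists_max_image (Set.range p) id hfin ⟨_, a1, rfl⟩
  have hle : ∀ a, p a ≤ m := fun a => hm _ ⟨a, rfl⟩
  have hm1 : 1 ≤ m := ham ▸ (hp am).1
  have hmk : m ≤ (Finset.univ : Finset Q).card := ham ▸ (hp am).2
  obtain ⟨T, -, hT⟩ := Finset.exists_subset_card_eq hmk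
  obtain ⟨t0, ht0⟩ : T.Nonempty := Finset.card_pos.1 (by omega)
  have hT' : (T.erase t0).card = m - 1 := by rw [Finset.card_erase_of_mem ht0, hT]
  have hinj : ∀ a b, g a = g b → a = b := by
    intro a b h
    by_contra hne
    have := hz' b a hne Finset.univ (fun t _ => by rw [h])
    have h2 := hp b
    rw [Finset.card_univ] at this
    omega
  have hdist : ∀ x y : Q → ℝ, ∀ δ : ℝ, dist x y < δ → ∀ t, |x t - y t| < δ := fun x y δ h t =>
    lt_of_le_of_lt (by rw [← Real.dist_eq]; exact dist_le_pi_dist x y t) h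
  have hV : IsClosed (g '' {a | p a ≠ m}) := by
    refine isClosed_of_closure_subset fun x hx => ?_
    obtain ⟨a0, rfl⟩ : x ∈ Set.range g :=
      hG.closure_subset (closure_mono (Set.image_subset_range _ _) hx)
    refine ⟨a0, fun h0 => ?_, rfl⟩
    obtain ⟨δ, hδ, H⟩ := bump g m a0 (h0 ▸ hs a0) T hT t0 ht0 1 one_pos
    obtain ⟨_, ⟨a', ha', rfl⟩, hd⟩ := Metric.mem_closure_iff.1 hx δ hδ
    obtain ⟨a, h1, h2, -⟩ := H (g a') (hdist _ _ _ hd)
    have hne : a ≠ a' := by rintro rfl; exact lt_irrefl _ h2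
    have := hz' a' a hne _ (fun t ht => (h1 t ht).symm)
    have h3 := hle a'
    have h4 := (hp a').1
    have h5 : p a' ≠ m := ha'
    omega
  have hU : IsClosed (g '' {a | p a = m}) := by
    refine isClosed_of_closure_subset fun x hx => ?_
    obtain ⟨b, rfl⟩ : x ∈ Set.range g :=
      hG.closure_subset (closure_mono (Set.image_subset_range _ _) hx)
    refine ⟨b, ?_, rfl⟩
    by_contra hb
    have hb' : p b ≠ m := hb
    have hexit : ∀ a, p a = m → dist (g a) (g b) ≤ 1 →
        ∃ c ∈ Set.range g ∩ Metric.sphere (g b) 1, ∀ t ∈ T.erase t0, c t = g a t := by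
      intro a ha hd
      have hcl : IsClosed {c : Q → ℝ | ∀ t ∈ T.erase t0, c t = g a t} := by
        simp only [Set.ofPred_forall]
        exact isClosed_iInter fun t => isClosed_iInter fun _ =>
          isClosed_eq (continuous_apply t) continuous_const
      have hK : IsCompact (Metric.closedBall (g b) 1 ∩
          (Set.range g ∩ {c : Q → ℝ | ∀ t ∈ T.erase t0, c t = g a t})) :=
        (isCompact_closedBall _ _).inter_right (hG.inter hcl)
      obtain ⟨_, ⟨hc1, ⟨a2, rfl⟩, hc3⟩, hmax⟩ := hK.exists_isMaxOn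
        ⟨g a, hd, ⟨a, rfl⟩, fun _ _ => rfl⟩ (continuous_apply t0).continuousOn
      refine ⟨g a2, ⟨⟨a2, rfl⟩, ?_⟩, hc3⟩
      have hp2 : p a2 = m := by
        by_cases h : a = a2
        · exact h ▸ ha
        · have := hz' a2 a h _ hc3
          have h3 := hle a2
          have h4 := (hp a2).1
          omega
      rcases lt_or_eq_of_le (Metric.mem_closedBall.1 hc1) with hlt | heq
      · exfalso
        obtain ⟨δ, hδ, H⟩ := bump g m a2 (hp2 ▸ hs a2) T hT t0 ht0 (1 - dist (g a2) (g b))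
          (by linarith)
        obtain ⟨a3, h1, h2, h3⟩ := H (g a2) (fun t => by simpa using hδ)
        have hd3 : dist (g a3) (g a2) ≤ 1 - dist (g a2) (g b) :=
          (dist_pi_le_iff (by linarith)).2 fun t => by rw [Real.dist_eq]; exact (h3 t).le
        have hmem : g a3 ∈ Metric.closedBall (g b) 1 ∩
            (Set.range g ∩ {c : Q → ℝ | ∀ t ∈ T.erase t0, c t = g a t}) := by
          refine ⟨?_, ⟨a3, rfl⟩, fun t ht => (h1 t ht).trans (hc3 t ht)⟩
          have := dist_triangle (g a3) (g a2) (g b)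
          rw [Metric.mem_closedBall]
          linarith
        have := hmax hmem
        simp only [Set.mem_ofPred_eq] at this
        linarith
      · exact heq
    have hS : IsCompact (Set.range g ∩ Metric.sphere (g b) 1) :=
      (isCompact_sphere _ _).inter_left hG
    let R : (Q → ℝ) → (Q → ℝ) := fun c t => if t ∈ T.erase t0 then c t else 0
    have hR : Continuous R := by
      refine continuous_pi fun t => ?_
      by_cases h : t ∈ T.erase t0
      · simp only [R, h, if_true]; exact continuous_apply t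
      · simp only [R, h, if_false]; exact continuous_const
    have hmem : R (g b) ∈ closure (R '' (Set.range g ∩ Metric.sphere (g b) 1)) := by
      refine Metric.mem_closure_iff.2 fun ε hε => ?_
      obtain ⟨_, ⟨a, ha, rfl⟩, hd⟩ := Metric.mem_closure_iff.1 hx (min ε 1) (lt_min hε one_pos)
      obtain ⟨c, hc, hct⟩ := hexit a ha (by rw [dist_comm]; exact (hd.trans_le (min_le_right _ _)).le)
      refine ⟨R c, ⟨c, hc, rfl⟩, (dist_pi_lt_iff hε).2 fun t => ?_⟩
      by_cases h : t ∈ T.erase t0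
      · simp only [R, h, if_true]
        rw [hct t h, Real.dist_eq]
        exact (hdist _ _ _ hd t).trans_le (min_le_left _ _)
      · simp only [R, h, if_false]
        simpa using hε
    obtain ⟨_, ⟨⟨c, rfl⟩, hc2⟩, hc3⟩ := (hS.image hR).isClosed.closure_subset hmem
    have hne : c ≠ b := by
      rintro rfl
      simp at hc2
    have := hz' b c hne (T.erase t0) (fun t ht => by
      have := congrFun hc3 t
      simp only [R, ht, if_true] at this
      exact this.symm)
    have h3 := hle b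
    have h4 := (hp b).1
    omega
  have hne : ∃ a, p a ≠ m := by
    by_contra h
    push Not at h
    exact hab ((h a1).trans (h b1).symm)
  obtain ⟨av, hav⟩ := hne
  obtain ⟨_, -, ⟨a, ha, rfl⟩, ⟨a', ha', h⟩⟩ := isPreconnected_closed_iff.1 hconn.isPreconnected _ _ hU hV
    (by
      rintro _ ⟨a, rfl⟩
      by_cases h : p a = m
      · exact Or.inl ⟨a, h, rfl⟩
      · exact Or.inr ⟨a, h, rfl⟩)
    ⟨g am, ⟨am, rfl⟩, am, ham, rfl⟩ ⟨g av, ⟨av, rfl⟩, av, hav, rfl⟩
  have := hinj _ _ h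
  subst this
  exact ha' ha

end Pool.Agent.Results.MP_850d3d_an.Q1
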